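import Pool.Agent.Lib.MP_b5021c_nt.IfaceE5T

/-!
# MP_b5021c_nt, stage 3, chapter E5, row E5_T2O: one closing without a drop
-/

namespace Pool.Agent.B5.H56

open scoped LaurentPolynomial
open Polynomial Pool.Agent.B5
open Pool.Agent.MP_b5021c_nt (nz)

/-- Normal form: the exponent. -/
theorem nf_zero {B : Type} [CommRing B] (n : ℤ) (p q : B[X]) (hp : p.coeff 0 ≠ 0)
    (hq : q.coeff 0 ≠ 0)
    (h : (LaurentPolynomial.T n : B[T;T⁻¹]) * toLaurent p = toLaurent q) : n = 0 := by
  by_contra hn
  rcases lt_or_gt_of_ne hn with h1 | h1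
  · obtain ⟨k, hk⟩ : ∃ k : ℕ, -n = k := ⟨(-n).toNat, by omega⟩
    have hk0 : k ≠ 0 := by omega
    have h2 : toLaurent p = toLaurent (X ^ k * q) := by
      rw [map_mul, toLaurent_X_pow, ← h, ← mul_assoc, ← LaurentPolynomial.T_add, ← hk,
        neg_add_cancel, LaurentPolynomial.T_zero, one_mul]
    have h3 := toLaurent_injective h2
    apply hp
    rw [h3, mul_coeff_zero, coeff_X_pow, if_neg (Ne.symm hk0), zero_mul]
  · obtain ⟨k, hk⟩ : ∃ k : ℕ, n = k := ⟨n.toNat, by omega⟩
    have hk0 : k ≠ 0 := by omega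
    have h2 : toLaurent (X ^ k * p) = toLaurent q := by
      rw [map_mul, toLaurent_X_pow, ← h, hk]
    have h3 := toLaurent_injective h2
    apply hq
    rw [← h3, mul_coeff_zero, coeff_X_pow, if_neg (Ne.symm hk0), zero_mul]

/-- Uniqueness of the normal form. -/
theorem nf_unique {B : Type} [CommRing B] (n m : ℤ) (p q : B[X]) (hp : p.coeff 0 ≠ 0)
    (hq : q.coeff 0 ≠ 0)
    (h : (LaurentPolynomial.T n : B[T;T⁻¹]) * toLaurent p = LaurentPolynomial.T m * toLaurent q) :
    n = m ∧ p = q := by
  have h1 : (LaurentPolynomial.T (n - m) : B[T;T⁻¹]) * toLaurent p = toLaurent q := by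
    rw [sub_eq_add_neg, add_comm, LaurentPolynomial.T_add, mul_assoc, h, ← mul_assoc,
      ← LaurentPolynomial.T_add, neg_add_cancel, LaurentPolynomial.T_zero, one_mul]
  have h2 := nf_zero _ p q hp hq h1
  rw [h2, LaurentPolynomial.T_zero, one_mul] at h1
  exact ⟨by omega, toLaurent_injective h1⟩

section

variable {O : Type} [CommRing O] {L : Type} [AddCommGroup L]

theorem cstm (c : RO O) (G : AO O L) (a : L) : (cst c * G).coeff a = c * G.coeff a := by
  unfold cst
  rw [AddMonoidAlgebra.coeff_single_zero_mul]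

theorem supp_cst_mul [IsDomain O] {c : RO O} (hc : c ≠ 0) (G : AO O L) :
    supp (cst c * G) = supp G := by
  ext a
  change (cst c * G).coeff a ≠ 0 ↔ G.coeff a ≠ 0
  rw [cstm]
  constructor
  · intro h h0
    rw [h0, mul_zero] at h
    exact h rfl
  · intro h
    exact mul_ne_zero hc h

theorem supp_cst_sub (c : RO O) : supp (cst c : AO O L) ⊆ {0} := by
  classical
  intro a ha
  by_contra h
  apply ha
  have h' : a ≠ 0 := h
  unfold cst
  rw [AddMonoidAlgebra.coeff_single, Finsupp.single_apply, if_neg (Ne.symm h')]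

end

/-- A class `P` element in normal form has exactly one zero in the disc. -/
theorem nz_of_classP {O : Type} [CommRing O] [Coef O] {θ : ℝ} {m : ℤ} {q : O[X]}
    (h : ClassP θ (LaurentPolynomial.T m * toLaurent q : RO O))
    (h1 : ‖(Coef.emb (q.coeff 0) : ℂ)‖ = 1) : nz (q.map Coef.emb) = 1 := by
  obtain ⟨-, n, q', hq, h0, w, -, hw⟩ := h
  have e1 : q.coeff 0 ≠ 0 := by
    intro h
    rw [h, map_zero, norm_zero] at h1
    exact zero_ne_one h1
  have e2 : q'.coeff 0 ≠ 0 := by
    intro h
    rw [h, map_zero, norm_zero] at h0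
    exact zero_ne_one h0
  obtain ⟨-, rfl⟩ := nf_unique m n q q' e1 e2 hq
  unfold nz
  rw [hw, Multiset.card_singleton]

/-- In a product a factor of measure `> 1` makes the measure `> 1`. -/
theorem one_lt_prod (hM : MmulS) {O : Type} [CommRing O] [IsDomain O] [IsPrincipalIdealRing O]
    [Coef O] {ι : Type} [DecidableEq ι] (s : Finset ι) (x : ι → RO O) (hx : ∀ i, x i ≠ 0) (i : ι)
    (hi : i ∈ s) (h : 1 < M (x i)) : 1 < M (∏ j ∈ s, x j) := by
  obtain ⟨m1, m2, -⟩ := hM O
  have hne : ∏ j ∈ s.erase i, x j ≠ 0 := Finset.prod_ne_zero_iff.mpr fun j _ => hx j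
  rw [← Finset.mul_prod_erase s x hi, m1 _ _ (hx i) hne]
  have h2 := m2 (∏ j ∈ s.erase i, x j)
  nlinarith

/-- (T2O) ONE closing of an element of class `P` with a load of type B. -/
theorem t2o (hFD : FDS) (hE1 : E1S) (hMV : MVS) (hMm : MmulS) (hE3 : E3mS) (hLs : LsdS)
    (hG1 : G1pS) (hG4 : G4S) (hRk : RkS) : T2oS := by
  classical
  intro O _ _ _ _ P L _ _ _ _ _ phi D S i0 eta h θ θ' m q f hD hr hR hI hP hq hf hq0 hP' h6
  obtain ⟨mv1, mv2⟩ := hMV O
  obtain ⟨mm1, mm2, mm3⟩ := hMm O
  obtain ⟨e11, e12⟩ := hE1 O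
  have hV := mv2 _ _ hP'
  have cc : CC phi D S i0 eta := ⟨hD, hr, hR, h, hV.1⟩
  obtain ⟨c, n, G, fd⟩ := hFD O P L phi D S i0 eta h cc
  -- the kernel has codimension one
  have hk0 : co phi i0 ≠ 0 := by
    intro h0
    rw [h0] at h
    exact absurd h (by simp)
  have hker := (hRk L L).1 (co phi i0) hk0
  -- the kernel meets the line of `S` trivially
  have key : ∀ a : Ker (co phi i0), (∀ j, phi S j = 0 → phi (a : L) j = 0) → a = 0 := by
    intro a ha
    obtain ⟨k, hk⟩ := hI (a : L) ha
    have h1 : co phi i0 (a : L) = 0 := a.2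
    rw [hk, map_zsmul, h, smul_eq_mul, mul_one] at h1
    apply Subtype.ext
    rw [hk, h1, zero_smul]
    rfl
  -- no pure factors
  have nopure : ∀ l, ¬ Pure phi S i0 (G l) := by
    intro l hl
    obtain ⟨a, ha, b, hb, hab⟩ := fd.wd l
    apply hab
    have h1 : a = 0 := key a fun j hj => hl a ha j (by
      unfold OO
      exact Finset.mem_filter.mpr ⟨Finset.mem_univ _, hj⟩)
    have h2 : b = 0 := key b fun j hj => hl b hb j (by
      unfold OO
      exact Finset.mem_filter.mpr ⟨Finset.mem_univ _, hj⟩)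
    rw [h1, h2]
  have hG0 : ∀ i, (G i).coeff 0 ≠ 0 := fun i => (fd.st i).1
  -- the constant coefficient
  have hP2 : ClassP θ' (c * ∏ i, (G i).coeff 0) := by
    rw [← fd.v00]; exact hP'
  have hlsd := hLs O P L phi D S i0 eta h c n G fd
  rw [hV.2, (mv2 _ _ hP).2] at hlsd
  have hbp : 0 ≤ ∏ i ∈ big G, M ((G i).coeff 0) :=
    Finset.prod_nonneg fun i _ => le_trans zero_le_one (mm2 _)
  have hcard : (0 : ℝ) ≤ ((snp phi S i0 G).card : ℝ) * ∏ i ∈ big G, M ((G i).coeff 0) :=
    mul_nonneg (Nat.cast_nonneg _) hbp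
  -- no factors
  by_cases hn0 : n = 0
  · left
    subst hn0
    have h1 : supp (cl (co phi i0) S h eta D) ⊆ {0} := by
      rw [fd.eq, Finset.univ_eq_empty, Finset.prod_empty, mul_one]
      exact supp_cst_sub c
    have h2 : rk (supp (cl (co phi i0) S h eta D)) ≤ 0 := by
      refine le_trans ((hRk (Ker (co phi i0)) (Ker (co phi i0))).2.1 _ _ h1) ?_
      unfold rk
      rw [Submodule.span_zero_singleton, finrank_bot]
    have h3 : rk (supp (cl (co phi i0) S h eta D)) = 0 := by omega
    rw [h3, Nat.cast_zero]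
    linarith
  by_cases hs : snp phi S i0 G = ∅
  · -- all factors are big
    have hbig : ∀ l, 1 < M ((G l).coeff 0) := by
      intro l
      by_contra hl
      have h1 : l ∈ snp phi S i0 G := by
        unfold snp
        exact Finset.mem_filter.mpr ⟨Finset.mem_univ _, hl, nopure l⟩
      rw [hs] at h1
      exact absurd h1 (Finset.notMem_empty _)
    right; right
    have i : Fin n := ⟨0, by omega⟩
    rcases e12 _ _ _ hP2 with ⟨-, h2⟩ | ⟨h1, h2⟩
    · exfalso
      have h3 := (mv1 _ _ h2).2
      have h4 := one_lt_prod hMm Finset.univ (fun i => (G i).coeff 0) hG0 i (Finset.mem_univ _)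
        (hbig i)
      linarith
    · have hn1 : n = 1 := by
        by_contra hn1
        have hij : (⟨0, by omega⟩ : Fin n) ≠ ⟨1, by omega⟩ := by
          intro h0
          exact absurd (congrArg Fin.val h0) (by simp)
        generalize (⟨0, by omega⟩ : Fin n) = i at hij
        generalize (⟨1, by omega⟩ : Fin n) = j at hij
        rw [← Finset.mul_prod_erase Finset.univ (fun i => (G i).coeff 0) (Finset.mem_univ i)] at h2
        rcases e12 _ _ _ h2 with ⟨-, h3⟩ | ⟨h3, -⟩
        · have h4 := (mv1 _ _ h3).2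
          have h5 := one_lt_prod hMm (Finset.univ.erase i) (fun i => (G i).coeff 0) hG0 j
            (Finset.mem_erase.mpr ⟨Ne.symm hij, Finset.mem_univ _⟩) (hbig j)
          linarith
        · have h4 := (mv1 _ _ h3).2
          have h5 := hbig i
          linarith
      subst hn1
      have hprod : cl (co phi i0) S h eta D = cst c * G 0 := by
        rw [fd.eq, Fin.prod_univ_one]
      have h3 : supp (cl (co phi i0) S h eta D) = supp (G 0) := by
        rw [hprod, supp_cst_mul fd.c0]
      rw [Fin.prod_univ_one] at h2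
      refine ⟨c, G 0, h1, hprod, h2, ?_, ?_⟩
      · intro B hB hBd
        rw [h3]
        exact (hG4 O P L phi D S i0 eta h c 1 G fd 0).2 _ _ h2 hB hBd
      · intro hrk
        refine ⟨?_, ?_, fd.st 0, fd.un 0, fd.irr 0, ?_⟩
        · rw [injective_iff_map_eq_zero]
          intro a ha
          apply key
          intro j hj
          have h3 : phO phi S i0 a j = 0 := by rw [ha]; rfl
          change (if phi S j = 0 then phi (a : L) j else 0) = 0 at h3
          rw [if_pos hj] at h3
          exact h3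
        · intro a ha j
          change (if phi S j = 0 then phi (a : L) j else 0) = 0 ∨
            (if phi S j = 0 then phi (a : L) j else 0) = 1
          by_cases hj : phi S j = 0
          · rw [if_pos hj]
            exact (fd.ww 0 a ha).1 j (by
              unfold OO
              exact Finset.mem_filter.mpr ⟨Finset.mem_univ _, hj⟩)
          · left
            rw [if_neg hj]
        · rw [← h3]
          omega
  · have hne : (snp phi S i0 G).Nonempty := Finset.nonempty_iff_ne_empty.mpr hs
    by_cases hc : M c = 1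
    · right; left
      rw [hq] at hP
      have hnz := nz_of_classP hP hq0
      have h7 : 2 * ‖(Coef.emb (f.coeff 0) : ℂ)‖ + 4 < M (D.coeff 0 + (eta : RO O) * D.coeff S) := by
        rw [hV.2]; exact h6
      exact hE3 O P L phi D S i0 eta h c n G fd hc hne m q f hq hf hq0 hnz h7
    · left
      rcases e12 _ _ _ hP2 with ⟨-, h2⟩ | ⟨h1, -⟩
      · have h3 := (mv1 _ _ h2).2
        have hb : big G = ∅ := by
          by_contra hb
          obtain ⟨i, hi⟩ := Finset.nonempty_iff_ne_empty.mpr hb
          unfold big at hi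
          have h4 := one_lt_prod hMm Finset.univ (fun i => (G i).coeff 0) hG0 i (Finset.mem_univ _)
            (Finset.mem_filter.mp hi).2
          linarith
        have h5 := hG1 O P L phi D S i0 eta h c n G fd
          (fun i b _ hp _ _ => nopure i hp)
        rw [hb, Finset.prod_empty, mul_one] at hlsd
        rw [hb, Finset.sum_empty, zero_add] at h5
        have h8 : (rk (supp (cl (co phi i0) S h eta D)) : ℝ) ≤ (snp phi S i0 G).card := by
          exact_mod_cast h5
        linarith
      · exact absurd (mv1 _ _ h1).2 hc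

end Pool.Agent.B5.H56
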